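import Pool.Agent.ZPU.StmtsC
import Pool.Agent.Helper24_ZPU.HYQ

/-!
# ZPU, row AFB: bad residues
-/

set_option autoImplicit false

namespace Pool.Agent.ZPU.H70

open Polynomial Pool.Agent.ZPU.H24

/-- A set of vectors which meets every line in direction `j` in at most `m` points. -/
theorem card_line {Z : Type} [Fintype Z] [DecidableEq Z] {n : ℕ} (S : Finset (Fin n → Z))
    (j : Fin n) (m : ℕ)
    (h : ∀ a : Fin n → Z,
      ((Finset.univ : Finset Z).filter fun y => Function.update a j y ∈ S).card ≤ m) :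
    S.card * Fintype.card Z ≤ m * Fintype.card Z ^ n := by
  classical
  have h1 : (S ×ˢ (Finset.univ : Finset Z)).card ≤
      ((Finset.univ : Finset (Fin n → Z)).sigma fun a =>
        (Finset.univ : Finset Z).filter fun y => Function.update a j y ∈ S).card := by
    refine Finset.card_le_card_of_injOn (fun x => ⟨Function.update x.1 j x.2, x.1 j⟩) ?_ ?_
    · rintro ⟨b, x⟩ hx
      have hb : b ∈ S := (Finset.mem_product.1 hx).1
      refine Finset.mem_coe.2 (Finset.mem_sigma.2 ⟨Finset.mem_univ _, Finset.mem_filter.2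
        ⟨Finset.mem_univ _, ?_⟩⟩)
      simp only [Function.update_idem, Function.update_eq_self]
      exact hb
    · rintro ⟨b, x⟩ - ⟨b', x'⟩ - hbx
      simp only [Sigma.mk.injEq, heq_eq_eq] at hbx
      obtain ⟨h2, h3⟩ := hbx
      have h4 : x = x' := by
        have := congrFun h2 j
        simpa using this
      have h5 : b = b' := by
        have h6 : Function.update (Function.update b j x) j (b j) =
            Function.update (Function.update b' j x') j (b' j) := by rw [h2, h3]
        simpa only [Function.update_idem, Function.update_eq_self] using h6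
      rw [h4, h5]
  rw [Finset.card_product, Finset.card_univ, Finset.card_sigma] at h1
  refine h1.trans ((Finset.sum_le_card_nsmul _ _ m fun a _ => h a).trans ?_)
  rw [Finset.card_univ, Fintype.card_fun, Fintype.card_fin, smul_eq_mul, mul_comm]

theorem nc_symm {k : Type} [Field k] {N M : ℕ} {f g : k[X]} (h : NC N M f g) : NC M N g f := by
  rcases h with h | h
  · exact Or.inl fun h' => h h'.symm
  · exact Or.inr h.symm

theorem nc_iff {p : ℕ} [Fact p.Prime] {N M : ℕ} (A B : ℤ[X]) :
    ¬ NC N M (bar p A) (bar p B) ↔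
      IsCoprime (bar p A) (bar p B) ∧ (¬ (p : ℤ) ∣ A.coeff N ∨ ¬ (p : ℤ) ∣ B.coeff M) := by
  have h1 : ∀ (A : ℤ[X]) (n : ℕ), (bar p A).coeff n = 0 ↔ (p : ℤ) ∣ A.coeff n := by
    intro A n
    rw [bar, coeff_map, ← ZMod.intCast_zmod_eq_zero_iff_dvd]
    exact Iff.rfl
  rw [NC, not_or, not_not, not_and_or, h1, h1]

theorem afb (af1 : AF1Stmt) : AFBStmt := by
  classical
  intro d n D F G hD hH
  have e0 : Ev fun p => 40 * (d + 1) < p := by
    refine ⟨(40 * (d + 1)).factorial, Nat.factorial_pos _, fun p hp hpm => ?_⟩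
    by_contra hle
    exact hpm ((hp.dvd_factorial).mpr (not_lt.mp hle))
  have e1 : Ev fun p => ∀ i, (¬ (p : ℤ) ∣ (F i).coeff (D i) ∨ ¬ (p : ℤ) ∣ (G i).coeff (D i)) ∧
      IsCoprime (bar p (F i)) (bar p (G i)) :=
    Ev.all fun i => (ev_or (hH.cFG i)).and (ev_coprime _ _ (hH.FG i))
  have e2 : Ev fun p => ∀ i j, i ≠ j →
      ((¬ (p : ℤ) ∣ (G i).coeff (D i) ∨ ¬ (p : ℤ) ∣ (G j).coeff (D j)) ∧
      IsCoprime (bar p (G i)) (bar p (G j))) :=
    Ev.all fun i => Ev.all fun j => Ev.imp _ fun hij =>
      (ev_or (hH.cGG i j hij)).and (ev_coprime _ _ (hH.GG i j hij))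
  obtain ⟨M, hM, hall⟩ := e0.and (e1.and e2)
  refine ⟨M, hM, fun p hp hpM => ?_⟩
  obtain ⟨g0, g1, g2⟩ := hall p hp hpM
  refine ⟨g0, ?_⟩
  have := Fact.mk hp
  have hcardZ : Fintype.card (ZMod p) = p := ZMod.card p
  -- the pencil
  set f : Fin n → ZMod p → (ZMod p)[X] := fun i c => bar p (F i) + C c * bar p (G i) with hf
  have dF : ∀ i, (bar p (F i)).natDegree ≤ D i := fun i => natDegree_map_le.trans (hH.dF i)
  have dG : ∀ i, (bar p (G i)).natDegree ≤ D i := fun i => natDegree_map_le.trans (hH.dG i)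
  have df : ∀ i c, (f i c).natDegree ≤ D i := fun i c =>
    (natDegree_add_le _ _).trans (max_le (dF i) ((natDegree_C_mul_le _ _).trans (dG i)))
  have n2 : ∀ i j, i ≠ j → ¬ NC (D i) (D j) (bar p (G i)) (bar p (G j)) := fun i j hij =>
    (nc_iff _ _).2 ⟨(g2 i j hij).2, (g2 i j hij).1⟩
  set B1 : Fin n × Fin n → Finset (Fin n → ZMod p) := fun x =>
    Finset.univ.filter fun a => x.1 ≠ x.2 ∧ NC (D x.1) (D x.2) (f x.1 (a x.1)) (bar p (G x.2))
    with hB1
  set B2 : Fin n × Fin n → Finset (Fin n → ZMod p) := fun x =>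
    Finset.univ.filter fun a => x.1 ≠ x.2 ∧
      ¬ NC (D x.1) (D x.2) (f x.1 (a x.1)) (bar p (G x.2)) ∧
      NC (D x.2) (D x.1) (f x.2 (a x.2)) (f x.1 (a x.1)) with hB2
  have c1 : ∀ x, (B1 x).card * p ≤ (d + 1) * p ^ n := by
    intro x
    have h0 := card_line (B1 x) x.1 (d + 1) (by
      intro a
      by_cases hx : x.1 = x.2
      · have h1 : ((Finset.univ : Finset (ZMod p)).filter fun y =>
            Function.update a x.1 y ∈ B1 x) = ∅ := by
          refine Finset.filter_eq_empty_iff.2 fun y _ hy => ?_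
          exact (Finset.mem_filter.1 hy).2.1 hx
        rw [h1, Finset.card_empty]
        exact Nat.zero_le _
      · obtain ⟨h1, h2⟩ := af1 (ZMod p) (D x.1) (D x.2) (bar p (F x.1)) (bar p (G x.1))
          (bar p (G x.2)) (hH.D1 _) (dF _) (dG _) (dG _) (n2 _ _ hx)
        rw [← Set.ncard_coe_finset]
        refine (Set.ncard_le_ncard ?_ h1).trans (h2.trans (by have := hD x.2; omega))
        intro y hy
        have h3 := (Finset.mem_filter.1 (Finset.mem_filter.1 (Finset.mem_coe.1 hy)).2).2.2
        rw [Function.update_self] at h3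
        exact h3)
    rwa [hcardZ] at h0
  have c2 : ∀ x, (B2 x).card * p ≤ (d + 1) * p ^ n := by
    intro x
    have h0 := card_line (B2 x) x.2 (d + 1) (by
      intro a
      by_cases hx : x.1 = x.2 ∨ NC (D x.1) (D x.2) (f x.1 (a x.1)) (bar p (G x.2))
      · have h1 : ((Finset.univ : Finset (ZMod p)).filter fun y =>
            Function.update a x.2 y ∈ B2 x) = ∅ := by
          refine Finset.filter_eq_empty_iff.2 fun y _ hy => ?_
          obtain ⟨h2, h3, -⟩ := (Finset.mem_filter.1 hy).2
          rw [Function.update_of_ne h2] at h3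
          rcases hx with hx | hx
          · exact h2 hx
          · exact h3 hx
        rw [h1, Finset.card_empty]
        exact Nat.zero_le _
      · rw [not_or] at hx
        obtain ⟨hx1, hx2⟩ := hx
        obtain ⟨h1, h2⟩ := af1 (ZMod p) (D x.2) (D x.1) (bar p (F x.2)) (bar p (G x.2))
          (f x.1 (a x.1)) (hH.D1 _) (dF _) (dG _) (df _ _) fun h => hx2 (nc_symm h)
        rw [← Set.ncard_coe_finset]
        refine (Set.ncard_le_ncard ?_ h1).trans (h2.trans (by have := hD x.1; omega))
        intro y hy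
        have h3 := (Finset.mem_filter.1 (Finset.mem_filter.1 (Finset.mem_coe.1 hy)).2).2.2.2
        rw [Function.update_self, Function.update_of_ne hx1] at h3
        exact h3)
    rwa [hcardZ] at h0
  refine ⟨(((Finset.univ : Finset (Fin n × Fin n)).biUnion fun x => B1 x ∪ B2 x :
    Finset (Fin n → ZMod p)) : Set (Fin n → ZMod p)), ?_, ?_⟩
  · rw [Set.ncard_coe_finset]
    calc ((Finset.univ : Finset (Fin n × Fin n)).biUnion fun x => B1 x ∪ B2 x).card * p
        ≤ (∑ x : Fin n × Fin n, ((B1 x).card + (B2 x).card)) * p := by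
          gcongr
          exact Finset.card_biUnion_le.trans
            (Finset.sum_le_sum fun x _ => Finset.card_union_le _ _)
      _ = ∑ x : Fin n × Fin n, ((B1 x).card * p + (B2 x).card * p) := by
          rw [Finset.sum_mul]
          exact Finset.sum_congr rfl fun x _ => by ring
      _ ≤ ∑ x : Fin n × Fin n, ((d + 1) * p ^ n + (d + 1) * p ^ n) :=
          Finset.sum_le_sum fun x _ => Nat.add_le_add (c1 x) (c2 x)
      _ = 2 * n ^ 2 * (d + 1) * p ^ n := by
          rw [Finset.sum_const, Finset.card_univ, Fintype.card_prod, Fintype.card_fin, smul_eq_mul]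
          ring
  · intro a ha
    have ha1 : ∀ i j, i ≠ j → ¬ NC (D i) (D j) (f i ((a i : ℤ) : ZMod p)) (bar p (G j)) := by
      intro i j hij h
      apply ha
      refine Finset.mem_coe.2 (Finset.mem_biUnion.2 ⟨(i, j), Finset.mem_univ _,
        Finset.mem_union_left _ (Finset.mem_filter.2 ⟨Finset.mem_univ _, hij, h⟩)⟩)
    have ha2 : ∀ i j, i ≠ j →
        ¬ NC (D j) (D i) (f j ((a j : ℤ) : ZMod p)) (f i ((a i : ℤ) : ZMod p)) := by
      intro i j hij h
      apply ha
      refine Finset.mem_coe.2 (Finset.mem_biUnion.2 ⟨(i, j), Finset.mem_univ _,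
        Finset.mem_union_right _ (Finset.mem_filter.2 ⟨Finset.mem_univ _, hij, ha1 i j hij, h⟩)⟩)
    have hbar : ∀ i, f i ((a i : ℤ) : ZMod p) = bar p (F i + C (a i) * G i) := by
      intro i
      rw [hf, bar, Polynomial.map_add, Polynomial.map_mul, Polynomial.map_C]
      rfl
    have hFG : ∀ i j, ¬ NC (D i) (D j) (bar p (F i + C (a i) * G i)) (bar p (G j)) := by
      intro i j
      by_cases hij : i = j
      · subst hij
        rw [nc_iff]
        constructor
        · rw [← hbar]
          exact (g1 i).2.add_mul_right_left _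
        · by_cases h1 : (p : ℤ) ∣ (G i).coeff (D i)
          · left
            intro h2
            rw [coeff_add, coeff_C_mul] at h2
            rcases (g1 i).1 with h3 | h3
            · exact h3 ((Int.dvd_add_left (h1.mul_left _)).1 h2)
            · exact h3 h1
          · exact Or.inr h1
      · rw [← hbar]
        exact ha1 i j hij
    have hFF : ∀ i j, i ≠ j → ¬ NC (D i) (D j) (bar p (F i + C (a i) * G i))
        (bar p (F j + C (a j) * G j)) := by
      intro i j hij
      rw [← hbar, ← hbar]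
      exact ha2 j i hij.symm
    refine ⟨hH.D1, hD, ?_, hH.dG, fun i j => ((nc_iff _ _).1 (hFG i j)).2,
      fun i j hij => ((nc_iff _ _).1 (hFF i j hij)).2, fun i j hij => (g2 i j hij).1,
      fun i j => ((nc_iff _ _).1 (hFG i j)).1, fun i j hij => ((nc_iff _ _).1 (hFF i j hij)).1,
      fun i j hij => (g2 i j hij).2⟩
    intro i
    exact (natDegree_add_le _ _).trans
      (max_le (hH.dF i) ((natDegree_C_mul_le _ _).trans (hH.dG i)))

end Pool.Agent.ZPU.H70
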