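import Pool.Agent.ZPU.StmtsB

/-!
# ZPU, row HPV: good coefficient vectors
-/

set_option autoImplicit false

namespace Pool.Agent.ZPU.H70

open Polynomial

noncomputable section

theorem pv_bar (p : ℕ) {d : ℕ} (a : Fin (d + 1) → ℤ) :
    bar p (pv a) = pv fun j => ((a j : ℤ) : ZMod p) := by
  rw [bar, pv, pv, Polynomial.map_sum]
  refine Finset.sum_congr rfl fun j _ => ?_
  rw [Polynomial.map_mul, Polynomial.map_C, Polynomial.map_pow, Polynomial.map_X]
  rfl

theorem pv_coeff {d : ℕ} (a : Fin (d + 1) → ℤ) : (pv a).coeff d = a (Fin.last d) := by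
  rw [pv, Polynomial.finsetSum_coeff, Finset.sum_eq_single (Fin.last d)]
  · rw [coeff_C_mul_X_pow, if_pos (Fin.val_last d).symm]
  · intro j _ hj
    rw [coeff_C_mul_X_pow, if_neg]
    intro h
    exact hj (Fin.ext (by rw [Fin.val_last, ← h]))
  · intro h
    exact absurd (Finset.mem_univ _) h

theorem pv_deg {d : ℕ} (a : Fin (d + 1) → ℤ) : (pv a).natDegree ≤ d :=
  Polynomial.natDegree_sum_le_of_forall_le _ _ fun j _ =>
    (natDegree_C_mul_X_pow_le _ _).trans (Nat.le_of_lt_succ j.2)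

theorem hpv : HPVStmt := by
  intro p hp n d hd a b hw
  rw [badR, Set.mem_ofPred_eq, not_or, not_or] at hw
  obtain ⟨h1, h2, h3⟩ := hw
  push Not at h1 h2 h3
  have hF : ∀ i, ¬ (p : ℤ) ∣ (pv (a i)).coeff d := by
    intro i h
    rw [pv_coeff, ← ZMod.intCast_zmod_eq_zero_iff_dvd] at h
    exact (h1 i).1 h
  have hG : ∀ i, ¬ (p : ℤ) ∣ (pv (b i)).coeff d := by
    intro i h
    rw [pv_coeff, ← ZMod.intCast_zmod_eq_zero_iff_dvd] at h
    exact (h1 i).2 h
  refine ⟨fun _ => hd, fun _ => le_rfl, fun i => pv_deg _, fun i => pv_deg _,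
    fun i j => Or.inl (hF i), fun i j _ => Or.inl (hF i), fun i j _ => Or.inl (hG i), ?_, ?_, ?_⟩
  · intro i j
    rw [pv_bar, pv_bar]
    exact h2 i j
  · intro i j hij
    rw [pv_bar, pv_bar]
    exact (h3 i j hij).1
  · intro i j hij
    rw [pv_bar, pv_bar]
    exact (h3 i j hij).2

end

end Pool.Agent.ZPU.H70
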