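import Pool.Agent.ZPU.StmtsB

/-!
# ZPU, row LC1: the local theorem with one special coordinate
-/

set_option autoImplicit false

namespace Pool.Agent.ZPU.H70

open Polynomial Pool.Agent.ZPT Pool.Agent.ZP3 Pool.Agent.ZP3.H51

noncomputable section

section
variable {K : Type} [NormedField K] [IsUltrametricDist K]

theorem norm_int_le (a : ℤ) : ‖(a : K)‖ ≤ 1 := IsUltrametricDist.norm_intCast_le_one K a

theorem aev_near (A : ℤ[X]) {x y : K} (hx : ‖x‖ ≤ 1) (hy : ‖y‖ ≤ 1) :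
    ‖aeval x A - aeval y A‖ ≤ ‖x - y‖ := by
  induction A using Polynomial.induction_on' with
  | add p q hp hq =>
    rw [map_add, map_add, add_sub_add_comm]
    exact add_le' hp hq
  | monomial n a =>
    rw [aeval_monomial, aeval_monomial, ← mul_sub, norm_mul]
    have h1 : ‖algebraMap ℤ K a‖ ≤ 1 := norm_int_le a
    have h2 := pow_near hx hy n
    nlinarith [norm_nonneg (x ^ n - y ^ n), norm_nonneg (algebraMap ℤ K a)]

omit [IsUltrametricDist K] in
theorem norm_int_eq_one {p : ℕ} (hp : p.Prime) [CharZero K] (hE : Ext p K) {n : ℤ}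
    (hn : ¬ (p : ℤ) ∣ n) : ‖(n : K)‖ = 1 := by
  have h1 := hE (n : ℚ)
  rw [Rat.cast_intCast] at h1
  rw [h1]
  have := Fact.mk hp
  rw [padicNorm.int_eq_one_iff n |>.mpr hn]
  simp

theorem norm_int_dvd {p : ℕ} (hp : p.Prime) [CharZero K] (hE : Ext p K) {n : ℤ}
    (hn : (p : ℤ) ∣ n) : ‖(n : K)‖ ≤ (p : ℝ)⁻¹ := by
  obtain ⟨k, rfl⟩ := hn
  rw [Int.cast_mul, Int.cast_natCast, norm_mul, norm_p hp hE]
  have h1 : ‖(k : K)‖ ≤ 1 := norm_int_le k
  have h2 : (0 : ℝ) ≤ (p : ℝ)⁻¹ := by positivity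
  nlinarith

omit [IsUltrametricDist K] in
theorem te_le {p : ℕ} (hp : p.Prime) {x : K} (hx : Te p x) : ‖x‖ ≤ 1 := by
  obtain ⟨f, hf, h⟩ := hx
  by_contra hc
  rw [not_le] at hc
  have h1 : 1 < p ^ f := Nat.one_lt_pow (by omega) hp.one_lt
  have h2 := pow_lt_pow_right₀ hc h1
  rw [pow_one, ← norm_pow, h] at h2
  exact lt_irrefl _ h2

end

theorem bar_ne {p d n : ℕ} {F G : Fin n → ℤ[X]} (hp : p.Prime) (hG : Good p d F G) (i : Fin n) :
    bar p (F i) ≠ 0 ∧ bar p (G i) ≠ 0 := by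
  have := Fact.mk hp
  have h1 := hG.FG i i
  constructor
  · intro h0
    rw [h0, isCoprime_zero_left] at h1
    rcases hG.nc i with h2 | h2
    · rw [h0, natDegree_zero] at h2
      exact lt_irrefl _ h2
    · rw [natDegree_eq_zero_of_isUnit h1] at h2
      exact lt_irrefl _ h2
  · intro h0
    rw [h0, isCoprime_zero_right] at h1
    rcases hG.nc i with h2 | h2
    · rw [natDegree_eq_zero_of_isUnit h1] at h2
      exact lt_irrefl _ h2
    · rw [h0, natDegree_zero] at h2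
      exact lt_irrefl _ h2

theorem lc1 (tca : TCAStmt) (alg : ALGStmt) (wld : WLDStmt) (tbd : TBDStmt) (sml : SMLStmt) :
    LC1Stmt := by
  intro U hU p hp K _ _ _ _ _ hE d n F G hd hG l hl i b c e hib hic hie heb hec
  have := Fact.mk hp
  have hp1 : (1 : ℝ) < p := by exact_mod_cast hp.one_lt
  have hp0 : (0 : ℝ) < p := by linarith
  have hpi0 : (0 : ℝ) < (p : ℝ)⁻¹ := inv_pos.2 hp0
  have hpi1 : (p : ℝ)⁻¹ < 1 := inv_lt_one_of_one_lt₀ hp1
  obtain ⟨h, c', ν, h1, hpc, hpν, T1, T2, T3⟩ := tca U hU p hp (by omega) K hE l hl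
  obtain ⟨hAL, hSg, hwr⟩ := alg p hp d n F G (by omega) hG b c e ν heb hec hpν
  have hνn : ‖(ν : K)‖ = 1 := norm_int_eq_one hp hE hpν
  have hcn : ‖(c' : K)‖ ≤ (p : ℝ)⁻¹ := norm_int_dvd hp hE hpc
  have hdeg : ∀ j k : Fin n, (F j * G k).natDegree ≤ 2 * d := fun j k =>
    (natDegree_mul_le).trans (by have := hG.dF j; have := hG.dG k; omega)
  have hdeg' : ∀ j k : Fin n, (G j * F k).natDegree ≤ 2 * d := fun j k => by
    rw [mul_comm]
    exact hdeg k j
  have hbarFG : ∀ j k : Fin n, bar p (F j * G k) ≠ 0 := fun j k => by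
    rw [bar, Polynomial.map_mul]
    exact mul_ne_zero (bar_ne hp hG j).1 (bar_ne hp hG k).2
  obtain ⟨M₁, hM₁, TB1⟩ := tbd p hp K hE (F c * G e) (F e * G c) (F i) (bar_ne hp hG i).1
  obtain ⟨M₂, hM₂, TB2⟩ := tbd p hp K hE (F c * G e) (F e * G c) (G i) (bar_ne hp hG i).2
  refine ⟨M₁ * M₂, Nat.mul_pos hM₁ hM₂, ?_⟩
  intro t t₀ q hte htt hsm hqi hq hmd1 hmd2
  obtain ⟨fb, gb, qb0, qb1, qbj⟩ := hq b (Or.inl rfl)
  obtain ⟨fc, gc, qc0, qc1, qcj⟩ := hq c (Or.inr (Or.inl rfl))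
  obtain ⟨fe, ge, qe0, qe1, qej⟩ := hq e (Or.inr (Or.inr rfl))
  obtain ⟨qi0, qi1, qij⟩ := hqi
  have ht0 : ‖t₀‖ ≤ 1 := te_le hp hte
  have ht1 : ‖t‖ ≤ 1 := by
    have h2 : t = (t - t₀) + t₀ := by ring
    rw [h2]
    exact add_le' htt.le ht0
  obtain ⟨nb, -, hQ⟩ := T1 _ _ _ fb gb qb0 qb1 qbj
  obtain ⟨nc, ac, -⟩ := T1 _ _ _ fc gc qc0 qc1 qcj
  obtain ⟨ne, ae, -⟩ := T1 _ _ _ fe ge qe0 qe1 qej
  have hqb : q b ≠ 0 := norm_pos_iff.1 qb0
  have hqc : q c ≠ 0 := norm_pos_iff.1 qc0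
  have hqe : q e ≠ 0 := norm_pos_iff.1 qe0
  have hqi' : q i ≠ 0 := norm_pos_iff.1 qi0
  have hζn : ‖q e / q c‖ = 1 := by
    rw [norm_div, ne, nc]
    exact div_self (pow_ne_zero _ hpi0.ne')
  -- `ζ` is a root of unity
  have hRo : Ro (q e / q c) := by
    obtain ⟨u, v, hu, hv, huv⟩ := hmd2
    have h2 := congrArg norm huv
    rw [norm_pow, norm_pow, nc, ne, ← pow_mul, ← pow_mul] at h2
    have h3 : h * u = h * v := pow_right_injective₀ hpi0 hpi1.ne h2
    have h4 : u = v := Nat.eq_of_mul_eq_mul_left (by omega) h3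
    subst h4
    refine ⟨u, hu, ?_⟩
    rw [div_pow, ← huv]
    exact div_self (pow_ne_zero _ hqc)
  -- `hz`
  have hnear : ∀ f g x : K, ‖g‖ = 1 → ‖x - (f - (c' : K) * g)‖ ≤ ((p : ℝ)⁻¹) ^ 2 →
      ‖f - x‖ ≤ (p : ℝ)⁻¹ := by
    intro f g x hg hx
    have h2 : ‖x - (f - (c' : K) * g)‖ ≤ (p : ℝ)⁻¹ := by nlinarith
    have h3 : ‖(c' : K) * g‖ ≤ (p : ℝ)⁻¹ := by rwa [norm_mul, hg, mul_one]
    have h4 : f - x = (c' : K) * g - (x - (f - (c' : K) * g)) := by ring
    rw [h4]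
    exact sub_le' h3 h2
  have hz : ‖aeval t (F c * G e) - q e / q c * aeval t (F e * G c)‖ ≤ (p : ℝ)⁻¹ := by
    have h2 := hnear _ _ _ gc ac
    have h3 := hnear _ _ _ ge ae
    have h4 : aeval t (F c * G e) - q e / q c * aeval t (F e * G c) =
        (aeval t (F c) - ((l : K) * q c)⁻¹ * aeval t (G c)) * aeval t (G e) -
        q e / q c * (aeval t (F e) - ((l : K) * q e)⁻¹ * aeval t (G e)) * aeval t (G c) := by
      rw [map_mul, map_mul, mul_inv, mul_inv]
      field_simp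
      ring
    rw [h4]
    refine sub_le' ?_ ?_
    · rw [norm_mul, ge, mul_one]
      exact h2
    · rw [norm_mul, norm_mul, gc, hζn, one_mul, mul_one]
      exact h3
  -- tameness
  have core : ∀ (E₁ E₂ : ℤ[X]) (x : K), E₁.natDegree ≤ 2 * d → E₂.natDegree ≤ 2 * d →
      bar p E₁ ≠ 0 → ‖aeval t E₂‖ = 1 → ‖aeval t E₁‖ < 1 → 0 < ‖x‖ → ‖x‖ < 1 →
      ‖x * aeval t E₂ - aeval t E₁‖ ≤ (p : ℝ)⁻¹ →
      (∃ a b' : ℕ, 1 ≤ a ∧ 1 ≤ b' ∧ x ^ a = q b ^ b') → Tame p (q e / q c) := by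
    intro E₁ E₂ x d1 d2 hb1 n2 s1 x0 x1 hx hdep
    refine wld p hp K hE (2 * d) (F c * G e) (F e * G c) E₁ E₂ (C ν * G b) (F b) h (by omega)
      (hdeg c e) (hdeg e c) d1 d2 ((natDegree_C_mul_le _ _).trans (by
        have := hG.dG b; omega)) (by have := hG.dF b; omega) hAL hSg hwr hb1 t t₀
        (q e / q c) x (q b) ?_
    refine ⟨hte, htt, ?_, ?_, n2, ?_, fb, s1, hRo, hz, x0, x1, hx, ?_, h1, hdep⟩
    · rw [map_mul, norm_mul, fc, ge, one_mul]
    · rw [map_mul, norm_mul, fe, gc, one_mul]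
    · rw [map_mul, norm_mul, gb, mul_one, aeval_C]
      exact hνn
    · rw [map_mul, aeval_C]
      exact hQ
  -- the reduction to `t₀`
  have hnt : ∀ A : ℤ[X], ‖aeval t₀ A - aeval t A‖ < 1 := fun A => by
    refine (aev_near A ht0 ht1).trans_lt ?_
    rw [norm_sub_rev]
    exact htt
  have hB0 : ‖aeval t₀ (F e * G c)‖ = 1 :=
    norm_one_of_near (by rw [map_mul, norm_mul, fe, gc, one_mul]) (hnt _)
  have hz0 : ‖aeval t₀ (F c * G e) - q e / q c * aeval t₀ (F e * G c)‖ < 1 := by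
    have h2 : aeval t₀ (F c * G e) - q e / q c * aeval t₀ (F e * G c) =
        (aeval t₀ (F c * G e) - aeval t (F c * G e)) +
        ((aeval t (F c * G e) - q e / q c * aeval t (F e * G c)) -
          q e / q c * (aeval t₀ (F e * G c) - aeval t (F e * G c))) := by ring
    rw [h2]
    refine (IsUltrametricDist.norm_add_le_max _ _).trans_lt (max_lt (hnt _) ?_)
    rw [sub_eq_add_neg (aeval t (F c * G e) - q e / q c * aeval t (F e * G c))]
    refine (IsUltrametricDist.norm_add_le_max _ _).trans_lt (max_lt (hz.trans_lt hpi1) ?_)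
    rw [norm_neg, norm_mul, hζn, one_mul]
    exact hnt _
  have hsmall : ∀ A : ℤ[X], ‖aeval t A‖ < 1 → ‖aeval t₀ A‖ < 1 := fun A hA => by
    have h2 : aeval t₀ A = (aeval t₀ A - aeval t A) + aeval t A := by ring
    rw [h2]
    exact (IsUltrametricDist.norm_add_le_max _ _).trans_lt (max_lt (hnt A) hA)
  have hζ : (q e / q c) ^ (M₁ * M₂) = 1 := by
    obtain ⟨u, v, hu, hv, huv⟩ := hmd1
    have huvn : ‖q i‖ ^ u = ‖q b‖ ^ v := by rw [← norm_pow, huv, norm_pow]
    rcases hsm with hs | hs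
    · have hg : ‖aeval t (G i)‖ = 1 := by
        rcases sml p hp K hE (F i) (G i) (hG.FG i i) t ht1 with h2 | h2
        · rw [h2] at hs
          exact absurd hs (lt_irrefl _)
        · exact h2
      obtain ⟨x1, hx⟩ := T2 _ _ _ _ _ _ fb gb hs hg qb0 qb1 qi0 qi1 qbj qij
      have hlt : ‖q b‖ < ‖q i‖ := by
        rw [norm_div, div_lt_one qi0] at x1
        exact x1
      have hvu : v < u := by
        by_contra hc
        rw [not_lt] at hc
        have h2 : ‖q b‖ ^ v < ‖q i‖ ^ v := pow_lt_pow_left₀ hlt (norm_nonneg _) (by omega)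
        have h3 : ‖q i‖ ^ v ≤ ‖q i‖ ^ u := pow_le_pow_of_le_one qi0.le qi1.le hc
        rw [huvn] at h3
        linarith
      have hT := core (F i * G b) (G i * F b) (q b / q i) (hdeg i b) (hdeg' i b) (hbarFG i b)
        (by rw [map_mul, norm_mul, hg, fb, one_mul]) (by rw [map_mul, norm_mul, gb, mul_one]
                                                         exact hs)
        (by rw [norm_div]; exact div_pos qb0 qi0) x1 (by rw [map_mul, map_mul]; exact hx)
        ⟨u, u - v, hu, by omega, by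
          rw [div_pow, huv, div_eq_iff (pow_ne_zero _ hqb), ← pow_add]
          congr 1
          omega⟩
      rw [pow_mul, TB1 t₀ _ hte (hsmall _ hs) hT hB0 hz0, one_pow]
    · have hf : ‖aeval t (F i)‖ = 1 := by
        rcases sml p hp K hE (F i) (G i) (hG.FG i i) t ht1 with h2 | h2
        · exact h2
        · rw [h2] at hs
          exact absurd hs (lt_irrefl _)
      obtain ⟨x1, hx⟩ := T3 _ _ _ _ _ _ fb gb hf hs qb0 qb1 qi0 qi1 qbj qij
      have hlt : ‖q i‖ < ‖q b‖ := by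
        rw [norm_div, div_lt_one qb0] at x1
        exact x1
      have hvu : u < v := by
        by_contra hc
        rw [not_lt] at hc
        have h2 : ‖q i‖ ^ u < ‖q b‖ ^ u := pow_lt_pow_left₀ hlt (norm_nonneg _) (by omega)
        have h3 : ‖q b‖ ^ u ≤ ‖q b‖ ^ v := pow_le_pow_of_le_one qb0.le qb1.le hc
        rw [huvn] at h2
        linarith
      have hT := core (G i * F b) (F i * G b) (q i / q b) (hdeg' i b) (hdeg i b) (by
          rw [mul_comm]
          exact hbarFG b i)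
        (by rw [map_mul, norm_mul, hf, gb, one_mul]) (by rw [map_mul, norm_mul, fb, mul_one]
                                                         exact hs)
        (by rw [norm_div]; exact div_pos qi0 qb0) x1 (by rw [map_mul, map_mul]; exact hx)
        ⟨u, v - u, hu, by omega, by
          rw [div_pow, huv, div_eq_iff (pow_ne_zero _ hqb), ← pow_add]
          congr 1
          omega⟩
      rw [mul_comm, pow_mul, TB2 t₀ _ hte (hsmall _ hs) hT hB0 hz0, one_pow]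
  rw [div_pow, div_eq_one_iff_eq (pow_ne_zero _ hqc)] at hζ
  exact hζ.symm

end

end Pool.Agent.ZPU.H70
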